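import Pool.Agent.H56.BD.StmtsT

/-!
# Module NSE (MP_c9fc14_co): existence of the system of nodes
-/

set_option autoImplicit false

namespace Pool.BD

open Relation

namespace NSE

variable {V : Type}

/-- candidates for the landing value at `b` -/
def Sl (G : SimpleGraph V) (rk : V → ℕ) (q0 : V) (L : Ct V) (b r : V) (t : ℤ) : Set V :=
  {u | Re G rk q0 u ∧ (u = r ∨ (t < L.lo u ∧ L.hi u < L.hi r)) ∧ Ar G rk u b ∧ L.par b ≠ u}

open Classical in
/-- landing value at `b` -/
noncomputable def tlv (G : SimpleGraph V) (rk : V → ℕ) (q0 : V) (L : Ct V) (b r : V) (t : ℤ) :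
    Option ℤ :=
  if h : ∃ u ∈ Sl G rk q0 L b r t, ∀ u' ∈ Sl G rk q0 L b r t, L.pos b u ≤ L.pos b u' then
    some (L.pos b h.choose) else none

theorem tlv_some {G : SimpleGraph V} {rk : V → ℕ} {q0 : V} {L : Ct V} {b r : V} {t τ : ℤ}
    (h : tlv G rk q0 L b r t = some τ) : ∃ u ∈ Sl G rk q0 L b r t, τ = L.pos b u := by
  unfold tlv at h
  split_ifs at h with h1
  exact ⟨h1.choose, h1.choose_spec.1, (Option.some_injective _ h).symm⟩

theorem tlv_ex [Finite V] {G : SimpleGraph V} {rk : V → ℕ} {q0 : V} {L : Ct V} {b r : V} {t : ℤ}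
    {u : V} (hu : u ∈ Sl G rk q0 L b r t) : ∃ τ, tlv G rk q0 L b r t = some τ ∧ τ ≤ L.pos b u := by
  have h1 : ∃ u ∈ Sl G rk q0 L b r t, ∀ u' ∈ Sl G rk q0 L b r t, L.pos b u ≤ L.pos b u' :=
    Set.exists_min_image _ _ (Set.toFinite _) ⟨u, hu⟩
  refine ⟨L.pos b h1.choose, ?_, h1.choose_spec.2 u hu⟩
  unfold tlv
  rw [dif_pos h1]

open Classical in
/-- one step of the recursion for `(ρ, t ∘ ρ)` -/
noncomputable def stp (L : Ct V) (b : V) (d : V × ℤ × Option ℤ) : V × ℤ :=
  match d.2.2 with
  | none => (d.1, d.2.1)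
  | some τ => if τ < L.lo b then (L.par b, τ) else (d.1, d.2.1)

open Classical in
/-- the data `(ρ b, t (ρ b), landing value at b)` -/
noncomputable def dat (G : SimpleGraph V) (rk : V → ℕ) (q0 : V) (L : Ct V) (b : V) :
    V × ℤ × Option ℤ :=
  if _h : b ≠ q0 ∧ rk (L.par b) < rk b then
    ((stp L b (dat G rk q0 L (L.par b))).1, (stp L b (dat G rk q0 L (L.par b))).2,
      tlv G rk q0 L b (stp L b (dat G rk q0 L (L.par b))).1
        (stp L b (dat G rk q0 L (L.par b))).2)
  else (q0, L.lo q0, some (L.lo q0))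
termination_by rk b
decreasing_by all_goals exact _h.2

theorem ex [Finite V] {G : SimpleGraph V} {rk : V → ℕ} {q0 : V} {L : Ct V}
    (hr : ∀ v, Re G rk q0 v → v ≠ q0 → rk (L.par v) < rk v) :
    ∃ (ρ : V → V) (tr : V → ℤ) (tl : V → Option ℤ), tl q0 = some (L.lo q0) ∧
      ∀ b, Re G rk q0 b → b ≠ q0 →
        ((tl (L.par b) = some (tr b) ∧ tr b < L.lo b ∧ ρ b = L.par b) ∨
          ((∀ τ, tl (L.par b) = some τ → L.lo b ≤ τ) ∧ ρ b = ρ (L.par b) ∧
            tr b = tr (L.par b))) ∧
        (∀ τ, tl b = some τ → ∃ u ∈ Sl G rk q0 L b (ρ b) (tr b), τ = L.pos b u) ∧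
        (∀ u ∈ Sl G rk q0 L b (ρ b) (tr b), ∃ τ, tl b = some τ ∧ τ ≤ L.pos b u) := by
  refine ⟨fun b => (dat G rk q0 L b).1, fun b => (dat G rk q0 L b).2.1,
    fun b => (dat G rk q0 L b).2.2, ?_, ?_⟩
  · show (dat G rk q0 L q0).2.2 = _
    rw [dat, dif_neg (fun h => h.1 rfl)]
  · intro b hb hbq
    have hd : dat G rk q0 L b = ((stp L b (dat G rk q0 L (L.par b))).1,
        (stp L b (dat G rk q0 L (L.par b))).2,
        tlv G rk q0 L b (stp L b (dat G rk q0 L (L.par b))).1
          (stp L b (dat G rk q0 L (L.par b))).2) := by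
      conv_lhs => rw [dat]
      rw [dif_pos ⟨hbq, hr b hb hbq⟩]
    beta_reduce
    refine ⟨?_, ?_, ?_⟩
    · rw [hd]
      dsimp only
      generalize dat G rk q0 L (L.par b) = d
      obtain ⟨d1, d2, d3⟩ := d
      cases d3 with
      | none => exact Or.inr ⟨by simp, rfl, rfl⟩
      | some τ =>
        unfold stp
        dsimp only
        by_cases h : τ < L.lo b
        · rw [if_pos h]
          exact Or.inl ⟨rfl, h, rfl⟩
        · rw [if_neg h]
          refine Or.inr ⟨?_, rfl, rfl⟩
          intro τ' hτ'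
          have := Option.some_injective _ hτ'
          omega
    · rw [hd]
      intro τ hτ
      exact tlv_some hτ
    · rw [hd]
      intro u hu
      exact tlv_ex hu

end NSE

open NSE in
theorem nse (_h : UPN) : NSE := by
  intro V _ G rk q0 L R0 hN
  have hL := hN.isL
  have hr : ∀ v ∈ {v | Re G rk q0 v}, v ≠ q0 → rk (L.par v) < rk v := hN.parL
  obtain ⟨ρ, tr, tl, h0, hs⟩ := ex (G := G) (rk := rk) (q0 := q0) (L := L) hN.parL
  have hpar : ∀ {b}, Re G rk q0 b → b ≠ q0 → Re G rk q0 (L.par b) :=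
    fun {b} hb hbq => (hL.par b hb hbq).1
  have hq0 : Re G rk q0 q0 := ReflTransGen.refl
  -- (A)
  have hA : ∀ n, ∀ b, rk b = n → Re G rk q0 b → b ≠ q0 →
      tl (ρ b) = some (tr b) ∧ Re G rk q0 (ρ b) ∧ rk (ρ b) < rk b ∧ tr b < L.lo b ∧
        L.hi b < L.hi (ρ b) := by
    intro n
    induction n using Nat.strong_induction_on with
    | _ n ih =>
      intro b hn hb hbq
      have hch := hL.ch b hb hbq
      have hrb := hr b hb hbq
      rcases (hs b hb hbq).1 with ⟨h1, h2, h3⟩ | ⟨h1, h2, h3⟩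
      · rw [h3]
        exact ⟨h1, hpar hb hbq, hrb, h2, hch.2.2.2⟩
      · have hv : L.par b ≠ q0 := by
          intro hv
          rw [hv] at h1 hch
          have := h1 _ h0
          omega
        obtain ⟨k1, k2, k3, k4, k5⟩ := ih (rk (L.par b)) (by omega) (L.par b) rfl (hpar hb hbq) hv
        rw [h2, h3]
        exact ⟨k1, k2, by omega, by omega, by omega⟩
  have hA' := fun b => hA (rk b) b rfl
  -- (B)
  have hB : ∀ y, Re G rk q0 y → ∀ τ, tl y = some τ → L.lo y ≤ τ ∧
      ∀ c, Re G rk q0 c → c ≠ q0 → L.par c = y → τ < L.lo c ∨ L.hi c < τ := by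
    intro y hy τ hτ
    by_cases hyq : y = q0
    · subst hyq
      rw [h0] at hτ
      have hτ' := Option.some_injective _ hτ
      refine ⟨hτ'.le, fun c hc hcq hcp => Or.inl ?_⟩
      have := hL.ch c hc hcq
      rw [hcp] at this
      omega
    · obtain ⟨u, ⟨hu1, -, hu2, hu3⟩, hu4⟩ := (hs y hy hyq).2.1 τ hτ
      have hd : Dn G {v | Re G rk q0 v} q0 Set.univ L y u :=
        ⟨hy, hu2.1.symm, fun _ => trivial, fun _ => Ne.symm hu3⟩
      have hdn := hL.dn _ _ hd
      refine ⟨by omega, fun c hc hcq hcp => ?_⟩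
      have hc2 := hL.ch_dn hr hc hcq
      rw [hcp] at hc2
      have hcu : c ≠ u := by
        rintro rfl
        have := hr c hc hcq
        rw [hcp] at this
        have := hu2.2
        omega
      rcases lt_trichotomy (L.pos y u) (L.pos y c) with h5 | h5 | h5
      · have := (hL.sep _ _ _ hd hc2 h5).2.1 ⟨hc, hcq, hcp⟩
        exact Or.inl (by omega)
      · exact absurd (hL.inj _ _ _ hd hc2 h5).symm hcu
      · have := (hL.sep _ _ _ hc2 hd h5).1 ⟨hc, hcq, hcp⟩
        exact Or.inr (by omega)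
  -- (C)
  have hC : ∀ n, ∀ b, rk b = n → Re G rk q0 b → b ≠ q0 → ∀ y, Re G rk q0 y →
      Anc {v | Re G rk q0 v} q0 L y b → y ≠ b →
      L.lo (ρ b) < L.lo y → L.hi y < L.hi (ρ b) → ρ y = ρ b ∧ tr y = tr b ∧
        ∀ τ, tl y = some τ → L.hi b < τ := by
    intro n
    induction n using Nat.strong_induction_on with
    | _ n ih =>
      intro b hn hb hbq y hy hyb hne h1 h2
      have hch := hL.ch b hb hbq
      have hrb := hr b hb hbq
      -- `y` is an ancestor of the parent
      have hyv : Anc {v | Re G rk q0 v} q0 L y (L.par b) := by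
        rcases ReflTransGen.cases_tail hyb with h3 | ⟨z, h3, -, -, h4⟩
        · exact absurd h3.symm hne
        · rw [h4]; exact h3
      have hyv' := hL.anc_le hyv
      rcases (hs b hb hbq).1 with ⟨-, -, h3⟩ | ⟨k1, k2, k3⟩
      · rw [h3] at h1
        omega
      · by_cases hvy : y = L.par b
        · refine ⟨hvy ▸ k2.symm, hvy ▸ k3.symm, fun τ hτ => ?_⟩
          have h4 := k1 τ (hvy ▸ hτ)
          have hl := hL.lh b hb
          rcases (hB y hy τ hτ).2 b hb hbq hvy.symm with h5 | h5
          · omega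
          · exact h5
        · have hvq : L.par b ≠ q0 := by
            intro hv
            rw [hv] at k1 hch
            have := k1 _ h0
            omega
          rw [k2] at h1 h2 ⊢
          obtain ⟨m1, m2, m3⟩ := ih (rk (L.par b)) (by omega) (L.par b) rfl (hpar hb hbq) hvq y hy
            hyv hvy h1 h2
          refine ⟨m1, by rw [m2, k3], fun τ hτ => ?_⟩
          have := m3 τ hτ
          omega
  have hC' := fun b => hC (rk b) b rfl
  -- values of `t`
  have ht : ∀ {y τ}, tl y = some τ → (tl y).getD 0 = τ := fun {y τ} h => by rw [h]; rfl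
  have htρ : ∀ {b}, Re G rk q0 b → b ≠ q0 → (tl (ρ b)).getD 0 = tr b :=
    fun {b} hb hbq => ht (hA' b hb hbq).1
  have hNd : ∀ {y}, Nd G rk q0 ρ y → Re G rk q0 y ∧ ∃ τ, tl y = some τ := by
    rintro y (rfl | ⟨b, hb, hbq, rfl⟩)
    · exact ⟨hq0, _, h0⟩
    · exact ⟨(hA' b hb hbq).2.1, _, (hA' b hb hbq).1⟩
  refine ⟨ρ, fun y => (tl y).getD 0, ?_, ?_, ?_, ?_, ?_⟩
  · exact ht h0
  · intro b hb hbq
    have h1 := hA' b hb hbq
    refine ⟨h1.2.1, h1.2.2.1, hb, Or.inr ⟨?_, h1.2.2.2.2⟩⟩
    beta_reduce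
    rw [htρ hb hbq]
    exact h1.2.2.2.1
  · intro b hb hbq hρ
    have h1 := hA' b hb hbq
    obtain ⟨u, ⟨hu1, hu2, hu3, hu4⟩, hu5⟩ := (hs (ρ b) h1.2.1 hρ).2.1 _ h1.1
    refine ⟨u, ⟨hu1, ?_⟩, hu3, hu4, ?_⟩
    · beta_reduce
      rw [htρ h1.2.1 hρ]
      exact hu2
    · rw [htρ hb hbq]
      exact hu5
  · intro b hb hbq
    have h1 := hA' b hb hbq
    refine ⟨⟨hb, Or.inr ⟨?_, h1.2.2.2.2⟩⟩, ?_, ?_⟩
    · beta_reduce
      rw [htρ hb hbq]
      exact h1.2.2.2.1
    · intro he
      have := h1.2.2.1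
      rw [← he] at this
      omega
    · rintro u ⟨hu, hu'⟩ y ⟨hy, hy'⟩ huy hpy hl hh
      beta_reduce at hu' hy'
      rw [htρ hb hbq] at hu' hy'
      have hlρ := (hB (ρ b) h1.2.1 _ h1.1).1
      have hyne : y ≠ ρ b := by
        intro he
        have hru : rk (ρ b) ≤ rk u := by
          rcases hu' with h5 | h5
          · rw [h5]
          · have := (hL.anc_iff hr (x := ρ b) (y := u) h1.2.1 hu).2 ⟨by omega, by omega⟩
            exact Anc.rank hr this
        have := huy.2
        rw [he] at this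
        omega
      rcases hy' with h5 | h5
      · exact absurd h5 hyne
      · have hyb := (hL.anc_iff hr (x := y) (y := b) hy hb).2 ⟨hl.le, hh.le⟩
        have hne : y ≠ b := by
          rintro rfl
          omega
        obtain ⟨m1, m2, m3⟩ := hC' b hb hbq y hy hyb hne (by omega) h5.2
        have hyq : y ≠ q0 := by
          rintro rfl
          have := hL.anc_le (hL.root_anc hr (ρ b) h1.2.1)
          omega
        obtain ⟨τ, h6, h7⟩ := (hs y hy hyq).2.2 u ⟨hu, by rw [m1, m2]; exact hu', huy, hpy⟩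
        have := m3 τ h6
        have hlb := hL.lh b hb
        omega
  · intro y b hy
    obtain ⟨hyU, τ, hτ⟩ := hNd hy
    have hty : (tl y).getD 0 = τ := ht hτ
    have hBy := hB y hyU τ hτ
    constructor
    · rintro ⟨⟨hb, hb'⟩, hne⟩
      have hb2 : τ < L.lo b ∧ L.hi b < L.hi y := by
        rcases hb' with h5 | h5
        · exact absurd h5 hne
        · beta_reduce at h5
          rw [hty] at h5
          exact h5
      have key : ∀ n, ∀ b, rk b = n → Re G rk q0 b → τ < L.lo b → L.hi b < L.hi y →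
          TransGen (Dw G rk q0 ρ) y b := by
        intro n
        induction n using Nat.strong_induction_on with
        | _ n ih =>
          intro b hn hb h1 h2
          have hbq : b ≠ q0 := by
            rintro rfl
            have := hL.anc_le (hL.root_anc hr y hyU)
            omega
          have hch := hL.ch b hb hbq
          have hrb := hr b hb hbq
          have hyb := (hL.anc_iff hr (x := y) (y := b) hyU hb).2 ⟨by omega, h2.le⟩
          have hyne : y ≠ b := by rintro rfl; omega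
          have hyv : Anc {v | Re G rk q0 v} q0 L y (L.par b) := by
            rcases ReflTransGen.cases_tail hyb with h3 | ⟨z, h3, -, -, h4⟩
            · exact absurd h3.symm hyne
            · rw [h4]; exact h3
          by_cases hvy : y = L.par b
          · refine TransGen.single ⟨hb, hbq, ?_⟩
            rcases (hs b hb hbq).1 with ⟨-, -, h3⟩ | ⟨k1, -, -⟩
            · rw [h3, hvy]
            · have := k1 τ (hvy ▸ hτ)
              omega
          · obtain ⟨c, hc, hcq, hcp, hcv⟩ := hyv.head hvy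
            have h3 := hL.anc_le hcv
            have hv3 := hL.lh _ (hpar hb hbq)
            have hlb := hL.lh b hb
            have h4 : τ < L.lo (L.par b) := by
              rcases hBy.2 c hc hcq hcp with h5 | h5 <;> omega
            have h5 : L.hi (L.par b) < L.hi y := (hL.anc_block hyv hvy).2
            have h6 := ih (rk (L.par b)) (by omega) (L.par b) rfl (hpar hb hbq) h4 h5
            rcases (hs b hb hbq).1 with ⟨-, -, h3⟩ | ⟨-, k2, -⟩
            · exact TransGen.tail h6 ⟨hb, hbq, h3⟩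
            · rcases TransGen.tail'_iff.1 h6 with ⟨z, hz1, hz2⟩
              exact TransGen.tail' hz1 ⟨hb, hbq, k2.trans hz2.2.2⟩
      exact key _ b rfl hb hb2.1 hb2.2
    · intro h
      have key : Re G rk q0 b ∧ τ < L.lo b ∧ L.hi b < L.hi y := by
        induction h with
        | single h1 =>
          obtain ⟨hb, hbq, he⟩ := h1
          have h2 := hA' _ hb hbq
          rw [he, hτ] at h2
          have h3 := Option.some_injective _ h2.1
          exact ⟨hb, by omega, h2.2.2.2.2⟩
        | @tail z b h1 h2 ih =>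
          obtain ⟨hb, hbq, he⟩ := h2
          have h2 := hA' _ hb hbq
          rw [he] at h2
          have h3 := (hB z h2.2.1 _ h2.1).1
          exact ⟨hb, by omega, by omega⟩
      refine ⟨⟨key.1, Or.inr ?_⟩, ?_⟩
      · beta_reduce
        rw [hty]
        exact key.2
      · rintro rfl
        omega

end Pool.BD
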