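import Pool.Agent.H56.BD.StmtsT

/-!
# Module WEQ (MP_c9fc14_co): the walk along the right boundary is the path of the rightmost tree
-/

set_option autoImplicit false

namespace Pool.BD

open Relation

namespace WEQ

variable {V : Type}

/-- states reachable from a given state -/
inductive Wf (G : SimpleGraph V) (H : Set V) (q : V) (Q : Set V) (L : Ct V) (D : Set V) (x0 w0 : V)
    (e0 : ℤ) : V → V → ℤ → Prop
  | base : Wf G H q Q L D x0 w0 e0 x0 w0 e0
  | step {x w : V} {e : ℤ} {g : V} : Wf G H q Q L D x0 w0 e0 x w e → Nxt G H q Q L D x e g →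
      Wf G H q Q L D x0 w0 e0 g x (Ed H q L g x)

variable {G : SimpleGraph V} {rk : V → ℕ} {H : Set V} {q : V} {Q : Set V} {L R : Ct V} {D : Set V}
  {b : V}

theorem Wf.wk {x0 w0 : V} {e0 : ℤ} (h0 : Wk G H q Q L D b x0 w0 e0) {x w : V} {e : ℤ}
    (h : Wf G H q Q L D x0 w0 e0 x w e) : Wk G H q Q L D b x w e := by
  induction h with
  | base => exact h0
  | step _ h2 ih => exact Wk.step ih h2

/-- the dart `(x,c)` is before `w` if it is not after the end of `w` -/
theorem before (h : IsCt G H q Q L) {x w c : V} (hw : Dn G H q Q L x w) (hc : Dn G H q Q L x c)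
    (hne : c ≠ w) (he : ¬ Ed H q L x w < L.pos x c) : L.pos x c < L.pos x w := by
  rcases lt_trichotomy (L.pos x c) (L.pos x w) with h1 | h1 | h1
  · exact h1
  · exact absurd (h.inj _ _ _ hc hw h1) hne
  · exfalso
    apply he
    unfold Ed
    split_ifs with h2
    · exact (h.sep _ _ _ hw hc h1).1 h2
    · exact h1

/-- the last dart to `D` in the order of `R` -/
theorem last (hN : NH G rk H q Q L R) {x w c : V} {e : ℤ}
    (hx : x ∈ H) (hw : Dn G H q Q L x w) (hwH : w ∈ H) (haw : Ar G rk x w) (hee : e = Ed H q L x w)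
    (hcD : c ∈ D) (hcH : c ∈ H) (hac : Ar G rk x c) (hcw : c ≠ w)
    (hq : x = q → ∀ z ∈ D, Dn G H q Q L q z → ¬ e < L.pos q z)
    (hg : x ≠ q → ∃ g, Nxt G H q Q L D x e g ∧ Ar G rk g x ∧ R.par x = g) :
    R.pos x c < R.pos x w := by
  have hok := hN.ok
  by_cases hxq : x = q
  · subst hxq
    have hcQ := hok.isL.QH c hcH hac.1
    have hwQ := hok.isL.QH w hwH haw.1
    have hdc : Dn G H x Q L x c := ⟨hx, hac.1, fun _ => hcQ, fun h => absurd rfl h⟩
    have h1 := before hok.isL hw hdc hcw (hee ▸ hq rfl c hcD hdc)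
    exact (hok.rotq c hcQ w hwQ hac.1 haw.1).1 h1
  · obtain ⟨g, hng, hgx, hRg⟩ := hg hxq
    have hrkc : rk x < rk c := hac.2
    have hrkw : rk x < rk w := haw.2
    have hrkg : rk g < rk x := hgx.2
    have hLp := hok.parL x hx hxq
    have hcL : c ≠ L.par x := by rintro rfl; omega
    have hwL : w ≠ L.par x := by rintro rfl; omega
    have hcg : c ≠ g := by rintro rfl; omega
    have hwg : w ≠ g := by rintro rfl; omega
    have hdc : Dn G H q Q L x c := ⟨hx, hac.1, fun h => absurd h hxq, fun _ => hcL⟩
    have hcyc : Cyc (L.val x w) (L.val x g) (L.val x c) := by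
      rw [Ct.val_ne hwL, Ct.val_ne hcL]
      rcases hng with ⟨hgD, hgn, hge, hmin⟩ | ⟨hno, _, hgp⟩
      · have hgL : g ≠ L.par x := hgn.2.2.2 hxq
        rw [Ct.val_ne hgL]
        have hwg' : L.pos x w < L.pos x g := by
          have h2 := before (L := L) hok.isL hgn hw hwg
          by_contra h3
          push Not at h3
          rcases lt_or_eq_of_le h3 with h4 | h4
          · unfold Ed at hee
            split_ifs at hee with h5
            · have := (hok.isL.sep _ _ _ hgn hw h4).2.1 h5
              have h6 := hok.isL.ch w h5.1 h5.2.1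
              omega
            · omega
          · exact hwg (hok.isL.inj _ _ _ hw hgn h4.symm)
        by_cases h1 : e < L.pos x c
        · have h2 := hmin c hcD hdc h1
          rcases lt_or_eq_of_le h2 with h3 | h3
          · exact Or.inl ⟨hwg', h3⟩
          · exact absurd (hok.isL.inj _ _ _ hgn hdc h3).symm hcg
        · have h2 := before hok.isL hw hdc hcw (hee ▸ h1)
          exact Or.inr (Or.inr ⟨h2, hwg'⟩)
      · rw [Ct.val_par hgp]
        have h1 := hno c hcD hdc
        have h2 := before hok.isL hw hdc hcw (hee ▸ h1)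
        have h3 := hok.isL.dn _ _ hw
        exact Or.inr (Or.inr ⟨h2, h3.2⟩)
    have hR := (hok.rot x hx hxq w g c haw.1 hgx.1.symm hac.1 hwg (Ne.symm hcg) (Ne.symm hcw)).1 hcyc
    have hwR : w ≠ R.par x := by rw [hRg]; exact hwg
    have hcR : c ≠ R.par x := by rw [hRg]; exact hcg
    rw [Ct.val_ne hwR, Ct.val_ne hcR, Ct.val_par hRg.symm] at hR
    have h1 := hok.isR.dn x w ⟨hx, haw.1, fun h => absurd h hxq, fun _ => hwR⟩
    have h2 := hok.isR.dn x c ⟨hx, hac.1, fun h => absurd h hxq, fun _ => hcR⟩
    unfold Cyc at hR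
    omega

/-- a path from a set to its complement leaves the set -/
theorem leave {r : V → V → Prop} {W : Set V} {x y : V} (h : ReflTransGen r x y) (hx : x ∈ W)
    (hy : y ∉ W) : ∃ z c, z ∈ W ∧ c ∉ W ∧ r z c ∧ ReflTransGen r c y := by
  induction h using ReflTransGen.head_induction_on with
  | refl => exact absurd hx hy
  | @head a c h1 h2 ih =>
    by_cases hc : c ∈ W
    · exact ih hc
    · exact ⟨a, c, hx, hc, h1, h2⟩

end WEQ

open WEQ in
theorem weq (_h1 : W1) (h3 : W3) : WEQ := by
  intro V _ G rk H q Q L R b hN hS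
  have hok := hN.ok
  obtain ⟨hinv, hnxt, hend, -⟩ := h3 V G rk H q Q L R b hN hS
  -- in a step the arc goes from the new vertex to the old one
  have hinv' : ∀ {x w e}, Wk G H q Q L (Ds G rk H b) b x w e → x ≠ b →
      w ∈ Ds G rk H b ∧ Ar G rk x w ∧ Dn G H q Q L x w ∧ e = Ed H q L x w := by
    intro x w e hk hxb
    rcases (hinv x w e hk).2.2 with h | h
    · exact absurd h.1 hxb
    · exact ⟨h.2.1, h.2.2.1, h.2.2.2.1, h.2.2.2.2.1⟩
  have hD : ∀ {x w e}, Wk G H q Q L (Ds G rk H b) b x w e → x ∈ Ds G rk H b :=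
    fun {x w e} hk => (hinv x w e hk).1
  have hstep : ∀ {x w e g}, Wk G H q Q L (Ds G rk H b) b x w e →
      Nxt G H q Q L (Ds G rk H b) x e g → g ≠ b ∧ Ar G rk g x := by
    intro x w e g hk hn
    have hk' := Wk.step hk hn
    have hxD := hD hk
    rcases (hinv _ _ _ hk').2.2 with h | h
    · -- `(g,x) = (b,b)`: then `g` is next to `x = b`
      exfalso
      obtain ⟨hgb, hxb, -⟩ := h
      rcases hn with ⟨-, hd, -, -⟩ | ⟨-, hxq, hgp⟩
      · rw [hgb, hxb] at hd
        exact G.loopless.irrefl _ hd.2.1
      · have := hok.parL x hxD.1 hxq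
        rw [← hgp, hgb, hxb] at this
        omega
    · exact ⟨h.1, h.2.2.1⟩
  have hrb : ∀ {x}, x ∈ Ds G rk H b → x ≠ b → rk x < rk b := fun hx hne => Re.rank_lt hx.2 hne
  -- main induction
  have key : ∀ n, ∀ x w e, rk x = n → Wk G H q Q L (Ds G rk H b) b x w e → x ≠ b → R.par w = x := by
    intro n
    induction n using Nat.strong_induction_on with
    | _ n ih =>
      intro x w e hn hk hxb
      by_contra hpar
      have hxD := hD hk
      have hxH : x ∈ H := hxD.1
      obtain ⟨hwD, haxw, hdxw, hee⟩ := hinv' hk hxb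
      have hwH : w ∈ H := hwD.1
      have hrxb := hrb hxD hxb
      -- properties of the later states
      have hWf : ∀ {z w' e'}, Wf G H q Q L (Ds G rk H b) x w e z w' e' →
          rk z ≤ rk x ∧ Anc H q R z x ∧
          ((z = x ∧ w' = w ∧ e' = e) ∨
            (rk z < rk x ∧ (∃ w'' e'', Wf G H q Q L (Ds G rk H b) x w e w' w'' e'') ∧
              Anc H q R w' x ∧ R.par w' = z ∧ w' ∈ H ∧ w' ≠ q)) := by
        intro z w' e' hf
        induction hf with
        | base => exact ⟨le_rfl, ReflTransGen.refl, Or.inl ⟨rfl, rfl, rfl⟩⟩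
        | @step z w' e' g hf hng ihf =>
          have hkz := hf.wk hk
          obtain ⟨hgb, hgz⟩ := hstep hkz hng
          have hkg := Wk.step hkz hng
          have hlt : rk g < rk x := lt_of_lt_of_le hgz.2 ihf.1
          have hp := ih (rk g) (by omega) g z _ rfl hkg hgb
          have hzH : z ∈ H := (hD hkz).1
          have hzq : z ≠ q := by
            rintro rfl
            rcases hng with ⟨hgD, -⟩ | ⟨-, h, -⟩
            · have h5 := hok.isL.root_anc hok.parL g hgD.1
              have h6 := Anc.rank hok.parL h5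
              have := hgz.2
              omega
            · exact h rfl
          exact ⟨hlt.le, ReflTransGen.head ⟨hzH, hzq, hp⟩ ihf.2.1,
            Or.inr ⟨hlt, ⟨w', e', hf⟩, ihf.2.1, hp, hzH, hzq⟩⟩
      -- the root is a later state
      have hqW : ∃ w' e', Wf G H q Q L (Ds G rk H b) x w e q w' e' := by
        have : ∀ m, ∀ z w' e', rk z = m → Wf G H q Q L (Ds G rk H b) x w e z w' e' →
            ∃ w' e', Wf G H q Q L (Ds G rk H b) x w e q w' e' := by
          intro m
          induction m using Nat.strong_induction_on with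
          | _ m ihm =>
            intro z w' e' hm hf
            by_cases hzq : z = q
            · subst hzq; exact ⟨w', e', hf⟩
            · have hkz := hf.wk hk
              obtain ⟨g, hg⟩ := hnxt z w' e' hkz hzq
              obtain ⟨-, hgz⟩ := hstep hkz hg
              exact ihm (rk g) (by have := hgz.2; omega) g z _ rfl (Wf.step hf hg)
        exact this _ x w e rfl Wf.base
      -- the place where the `R`-path to `w` leaves the walk
      have hqw := hok.isR.root_anc hok.parR w hwH
      obtain ⟨z, c, ⟨w', e', hf⟩, hcW, ⟨hcH, hcq, hcz⟩, hcw⟩ :=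
        leave (W := {z | ∃ w' e', Wf G H q Q L (Ds G rk H b) x w e z w' e'}) hqw hqW (by
          rintro ⟨w', e', hf⟩
          have := (hWf hf).1
          have := haxw.2
          omega)
      have hkz := hf.wk hk
      have hzD := hD hkz
      have hcD : c ∈ Ds G rk H b :=
        ⟨hcH, (Anc.reach hok.isR hok.parR hcw).trans hwD.2⟩
      have hac : Ar G rk z c := by
        have h5 := hok.isR.par c hcH hcq
        have h6 := hok.parR c hcH hcq
        rw [hcz] at h5 h6
        exact ⟨h5.2, h6⟩
      obtain ⟨hzle, hzx, hcase⟩ := hWf hf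
      have hzb : z ≠ b := by rintro rfl; omega
      have hcw' : c ≠ w' := by
        rintro rfl
        rcases hcase with ⟨h5, h6, -⟩ | ⟨-, h5, -⟩
        · apply hpar
          rw [← h6, ← h5]
          exact hcz
        · exact hcW h5
      obtain ⟨hw'D, hazw', hdzw', hee'⟩ := hinv' hkz hzb
      have hlast := last (D := Ds G rk H b) hN hzD.1 hdzw' hw'D.1 hazw' hee' hcD hcH hac hcw'
        (fun hzq => by subst hzq; exact hend w' e' hkz)
        (fun hzq => by
          obtain ⟨g, hg⟩ := hnxt z w' e' hkz hzq
          obtain ⟨hgb, hgz⟩ := hstep hkz hg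
          refine ⟨g, hg, hgz, ih (rk g) (by have := hgz.2; omega) g z _ rfl (Wk.step hkz hg) hgb⟩)
      -- positions in `R`
      have hwq : w ≠ q := by
        rintro rfl
        have h5 := hok.isL.root_anc hok.parL x hxH
        have h6 := Anc.rank hok.parL h5
        have := haxw.2
        omega
      have hdwx : Dn G H q Q R w x := ⟨hwH, haxw.1.symm, fun h => absurd h hwq,
        fun _ h => hpar h.symm⟩
      have hdxwR : Dn G H q Q R x w := ⟨hxH, haxw.1, fun h => hok.isR.QH w hwH (h ▸ haxw.1),
        fun hxq h => by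
          have := hok.parR x hxH hxq
          rw [← h] at this
          have := haxw.2
          omega⟩
      have hright := hok.right x hxH w hwH haxw hpar
      have hw1 := hok.isR.dn _ _ hdwx
      have hw2 := hok.isR.anc_le hcw
      have hx1 := hok.isR.dn _ _ hdxwR
      have hzc : Dn G H q Q R z c := by
        have := hok.isR.ch_dn hok.parR hcH hcq
        rwa [hcz] at this
      have hCh : Ch H q R z c := ⟨hcH, hcq, hcz⟩
      rcases hcase with ⟨h5, h6, -⟩ | ⟨-, -, hanc, hpw', hw'H, hw'q⟩
      · subst h5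
        rw [h6] at hlast
        have := (hok.isR.sep _ _ _ hzc hdxwR hlast).1 hCh
        omega
      · have hzw' : Dn G H q Q R z w' := by
          have := hok.isR.ch_dn hok.parR hw'H hw'q
          rwa [hpw'] at this
        have := (hok.isR.sep _ _ _ hzc hzw' hlast).2.2 hCh ⟨hw'H, hw'q, hpw'⟩
        have h7 := hok.isR.anc_le hanc
        omega
  -- conclusion
  intro x w e hk
  have main : ∀ {x w e}, Wk G H q Q L (Ds G rk H b) b x w e → Anc H q R x b := by
    intro x w e hk
    induction hk with
    | base => exact ReflTransGen.refl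
    | @step x w e g hk hg ihk =>
      obtain ⟨hgb, hgx⟩ := hstep hk hg
      have hp := key _ g x _ rfl (Wk.step hk hg) hgb
      have hxH : x ∈ H := (hD hk).1
      have hxq : x ≠ q := by
        rintro rfl
        rcases hg with ⟨hgD, -⟩ | ⟨-, h, -⟩
        · have h5 := hok.isL.root_anc hok.parL g hgD.1
          have h6 := Anc.rank hok.parL h5
          have := hgx.2
          omega
        · exact h rfl
      exact ReflTransGen.head ⟨hxH, hxq, hp⟩ ihk
  refine ⟨main hk, fun hxb => ⟨key _ x w e rfl hk hxb, ?_⟩⟩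
  cases hk with
  | base => exact absurd rfl hxb
  | step hk _ => exact main hk

end Pool.BD
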